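import Pool.Agent.V7H10.KN
import Pool.Agent.N790.CM.F

/-!
# The span of the bracket polynomial of knotoids and the multiples of Carmichael's function

Let `arcs` be a template of a knotoid diagram with `k` boxes, not all nugatory, and `K(n)`, `n ∈ ℤ^k`, the diagram with
`|n e|` crossings in the box `e`. We consider the twist vectors `n = (a_e w_e + b_e)`, where `w_e` is ANY positive integer up
to `N ^ B` divisible by `p - 1` for all primes `p > exp (√log N)` which divide `m_e` exactly once, for instance any multiple of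
Carmichael's function `λ(m_e)` (among them `λ(m_e)` and Euler's function `φ(m_e)`), and `a_e ≠ 0`, `b_e` are ANY small integers.
Let `0 ≤ σ < 1` and `B (k - 1 + σ) < k`. For all but `N ^ k / (log N) ^ U` of the vectors `m` in `{1, …, N} ^ k` (for any `U`),
for ALL these `n` the span of the normalised bracket polynomial of every knotoid diagram on the twisted arcs of `n` is larger
than `4 |n| ^ σ - 4`, `|n|` the maximum norm.

The multiples of `λ(m)`, `m ≤ N`, are popular: one integer is a multiple for many `m`, and so this does not follow from the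
size of the exceptional set, which contains whole hyperplanes. The input is the starting theorem `KnotoidTwist` with the count
of helper10 (`Pool.Agent.V7H10.KN`), the tool is `Pool.Agent.N790.CM` of the starting library.
-/

set_option autoImplicit false

namespace Pool.Agent.V7H35.Moved.CarmichaelTwists

open Pool.Agent.H891R2.Jones Pool.Agent.H891R2.MT Pool.Agent.H832R3.TW
open Pool.Agent.V7H10.KN (Bad bad_mono)
open Pool.Agent.N790.CM (FewTimes Carries keep_near)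

/-- **Twist vectors near all multiples of Carmichael's function.** Let `arcs` be a template with `k` boxes, not all nugatory,
`0 ≤ σ < 1` and `B ≥ 1` with `B (k - 1 + σ) < k`. There is `η > 0` such that for all functions `F_1, …, F_k` which take each
positive value at most `T` times at the primes, all `U` and all large `N`, for all but `N ^ k / (log N) ^ U` of the `m` in
`{1, …, N} ^ k`: for ALL positive integers `w_e ≤ N ^ B` divisible by `F_e p` for all primes `p > exp (√log N)` dividing `m_e`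
exactly once, and ALL integers `a_e ≠ 0`, `b_e` at most `w_l ^ η` in absolute value for some `l`, the normalised bracket
polynomial of every knotoid diagram on the twisted arcs of `n = (a_e w_e + b_e)` is not supported in an interval of length
`4 s`, for any `s ≤ |n| ^ σ`. The function `p ↦ p - 1` is an example, with `T = 1`, and it covers all multiples of
Carmichael's function. -/
theorem result (k : ℕ) (arcs : List (Corner k × Corner k)) (hN : ¬ Nugatory arcs) (σ : ℝ) (hσ : 0 ≤ σ) (hσ1 : σ < 1)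
    (B : ℝ) (hB : 1 ≤ B) (hBσ : B * ((k : ℝ) - 1 + σ) < k) :
    (∃ η : ℝ, 0 < η ∧ ∀ (T : ℕ) (F : Fin k → ℕ → ℕ), (∀ e, FewTimes (F e) T) → ∀ U : ℕ, ∃ N₀ : ℕ, ∀ N : ℕ, N₀ ≤ N →
      ({m : Fin k → ℕ | (∀ e, 1 ≤ m e ∧ m e ≤ N) ∧ ¬ ∀ w : Fin k → ℕ,
        (∀ e, 1 ≤ w e ∧ (w e : ℝ) ≤ (N : ℝ) ^ B ∧ Carries (F e) (Real.exp √(Real.log N)) (m e) (w e)) →
        ∀ a b n : Fin k → ℤ, (∃ l, ∀ e, a e ≠ 0 ∧ |(a e : ℝ)| ≤ (w l : ℝ) ^ η ∧ |(b e : ℝ)| ≤ (w l : ℝ) ^ η) →
        (∀ e, n e = a e * (w e : ℤ) + b e) →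
        ∀ D : Diagram (Ribbon.Pt n), Orients D (twisted arcs n) → IsKnotoid D →
          ∀ s : ℕ, (s : ℝ) ≤ ‖n‖ ^ σ → ¬ FSpanLE s D}.ncard : ℝ) ≤ (N : ℝ) ^ k / Real.log N ^ U) ∧
    FewTimes (fun p => p - 1) 1 ∧
    ∀ (y : ℝ) (m w : ℕ), ArithmeticFunction.carmichael m ∣ w → Carries (fun p => p - 1) y m w := by
  refine ⟨?_, Pool.Agent.N790.CM.fewTimes_pred, Pool.Agent.N790.CM.carries_carmichael⟩
  have hk := pos_of_not_nugatory arcs hN
  have hk1 : (1 : ℝ) ≤ k := by exact_mod_cast hk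
  obtain ⟨η, hη, hkeep⟩ := keep_near hk (c := 1 - σ) (B := B) (by linarith) hB
    (by rw [show (k : ℝ) - (1 - σ) = (k : ℝ) - 1 + σ by ring]; exact hBσ)
  refine ⟨η, hη, fun T F hF U => ?_⟩
  obtain ⟨N₀, hN₀⟩ := hkeep T F hF (3 ^ k * (8 * k + 5) * 3 ^ (k - 1)) U
  refine ⟨N₀, fun N hNN => ?_⟩
  refine le_trans ?_ (hN₀ N hNN {n : Fin k → ℤ | Bad arcs (‖n‖ ^ σ) n} (fun X hX => ?_))
  · have hfin : {m : Fin k → ℕ | (∀ e, 1 ≤ m e ∧ m e ≤ N) ∧ ¬ ∀ w : Fin k → ℕ,
        (∀ e, 1 ≤ w e ∧ (w e : ℝ) ≤ (N : ℝ) ^ B ∧ Carries (F e) (Real.exp √(Real.log N)) (m e) (w e)) →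
        ∀ a b : Fin k → ℤ, (∃ l, ∀ e, a e ≠ 0 ∧ |(a e : ℝ)| ≤ (w l : ℝ) ^ η ∧ |(b e : ℝ)| ≤ (w l : ℝ) ^ η) →
        (fun e => a e * (w e : ℤ) + b e) ∉ {n : Fin k → ℤ | Bad arcs (‖n‖ ^ σ) n}}.Finite := by
      refine (Set.Finite.pi' (fun _ : Fin k => Set.finite_Icc 1 N)).subset ?_
      intro m hm e
      exact hm.1 e
    have hsub : {m : Fin k → ℕ | (∀ e, 1 ≤ m e ∧ m e ≤ N) ∧ ¬ ∀ w : Fin k → ℕ,
        (∀ e, 1 ≤ w e ∧ (w e : ℝ) ≤ (N : ℝ) ^ B ∧ Carries (F e) (Real.exp √(Real.log N)) (m e) (w e)) →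
        ∀ a b n : Fin k → ℤ, (∃ l, ∀ e, a e ≠ 0 ∧ |(a e : ℝ)| ≤ (w l : ℝ) ^ η ∧ |(b e : ℝ)| ≤ (w l : ℝ) ^ η) →
        (∀ e, n e = a e * (w e : ℤ) + b e) →
        ∀ D : Diagram (Ribbon.Pt n), Orients D (twisted arcs n) → IsKnotoid D →
          ∀ s : ℕ, (s : ℝ) ≤ ‖n‖ ^ σ → ¬ FSpanLE s D} ⊆
        {m : Fin k → ℕ | (∀ e, 1 ≤ m e ∧ m e ≤ N) ∧ ¬ ∀ w : Fin k → ℕ,
        (∀ e, 1 ≤ w e ∧ (w e : ℝ) ≤ (N : ℝ) ^ B ∧ Carries (F e) (Real.exp √(Real.log N)) (m e) (w e)) →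
        ∀ a b : Fin k → ℤ, (∃ l, ∀ e, a e ≠ 0 ∧ |(a e : ℝ)| ≤ (w l : ℝ) ^ η ∧ |(b e : ℝ)| ≤ (w l : ℝ) ^ η) →
        (fun e => a e * (w e : ℤ) + b e) ∉ {n : Fin k → ℤ | Bad arcs (‖n‖ ^ σ) n}} := by
      rintro m ⟨h1, h2⟩
      refine ⟨h1, fun h3 => h2 ?_⟩
      intro w hw a b n hab hn D hD hK s hs hF
      apply h3 w hw a b hab
      have h4 : (fun e => a e * (w e : ℤ) + b e) = n := by
        funext e
        exact (hn e).symm
      rw [h4]
      exact ⟨s, D, hs, hD, hK, hF⟩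
    exact_mod_cast Set.ncard_le_ncard hsub hfin
  · refine le_trans ?_ (Pool.Agent.V7H10.KN.count hk arcs hN hσ X hX)
    apply Nat.cast_le.2
    apply Set.ncard_le_ncard
    · rintro n ⟨h1, h2⟩
      refine ⟨h1, bad_mono (Real.rpow_le_rpow (norm_nonneg _) ?_ hσ) h2⟩
      rw [pi_norm_le_iff_of_nonneg (by positivity)]
      intro e
      rw [Int.norm_eq_abs]
      exact_mod_cast h1 e
    · exact (Pool.Agent.V7H10.KN.finite_box k X).subset fun n hn => hn.1

end Pool.Agent.V7H35.Moved.CarmichaelTwists
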