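import Pool.Agent.V7H35.PierceCore

/-!
# Two-dimensional `k`-piercing partitions into proper boxes

For every `k ≥ 2` and every `n ≥ 2 * k - 2` the least number of parts in a partition of `[n] × [n]`
into proper boxes such that every row and every column meets at least `k` parts is `4 * (k - 1)`;
the lower bound holds for every `n`.  The lower bound is `Pool.Agent.V7H35.Pierce.grid_bound`.
-/

namespace Pool.Agent.Results.MP_21d1af_co.PiercingBoxesH35

open Finset Filter Topology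
open scoped Classical

/-- A proper box in `[n] × [n]`: a product `B₁ × B₂` of nonempty sets, both different from `[n]`. -/
def IsProperBox (n : ℕ) (B : Finset (Fin n × Fin n)) : Prop :=
  ∃ B₁ B₂ : Finset (Fin n), B₁.Nonempty ∧ B₂.Nonempty ∧ B₁ ≠ univ ∧ B₂ ≠ univ ∧ B = B₁ ×ˢ B₂

/-- `P` is a partition of `[n] × [n]` into proper boxes. -/
def IsBoxPartition (n : ℕ) (P : Finset (Finset (Fin n × Fin n))) : Prop :=
  (∀ B ∈ P, IsProperBox n B) ∧ (∀ B ∈ P, ∀ B' ∈ P, B ≠ B' → Disjoint B B') ∧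
    ∀ x : Fin n × Fin n, ∃ B ∈ P, x ∈ B

/-- Every axis-parallel line of `[n] × [n]` meets at least `k` members of `P`. -/
def IsPiercing (n k : ℕ) (P : Finset (Finset (Fin n × Fin n))) : Prop :=
  (∀ i : Fin n, k ≤ (P.filter fun B => ∃ j, (i, j) ∈ B).card) ∧
    ∀ j : Fin n, k ≤ (P.filter fun B => ∃ i, (i, j) ∈ B).card

/-- The possible numbers of parts of a `k`-piercing partition of `[n] × [n]` into proper boxes. -/
def sizes (n k : ℕ) : Set ℕ :=
  {m | ∃ P : Finset (Finset (Fin n × Fin n)), IsBoxPartition n P ∧ IsPiercing n k P ∧ P.card = m}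

/-- `pBox n k` is the least number of parts. -/
noncomputable def pBox (n k : ℕ) : ℕ := sInf (sizes n k)

/-- `pBoxLim k` is the limit of `pBox n k` as `n` tends to infinity. -/
noncomputable def pBoxLim (k : ℕ) : ℕ := limUnder atTop fun n => pBox n k

theorem lower {n k : ℕ} (hn : 1 ≤ n) (P : Finset (Finset (Fin n × Fin n)))
    (hP : IsBoxPartition n P) (hk : IsPiercing n k P) : 4 * (k - 1) ≤ P.card := by
  have : NeZero n := ⟨by omega⟩
  have hbox : ∀ b : {B // B ∈ P}, ∀ i j,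
      ((∃ j', (i, j') ∈ b.1) ∧ ∃ i', (i', j) ∈ b.1) ↔ (i, j) ∈ b.1 := by
    rintro ⟨B, hB⟩ i j
    obtain ⟨B₁, B₂, h1, h2, h3, h4, rfl⟩ := hP.1 B hB
    simp only [mem_product]
    constructor
    · rintro ⟨⟨j', hj', -⟩, i', -, hi'⟩
      exact ⟨hj', hi'⟩
    · rintro ⟨hi, hj⟩
      exact ⟨⟨j, hi, hj⟩, i, hi, hj⟩
  have hcard : ∀ p : Finset (Fin n × Fin n) → Prop,
      (univ.filter fun b : {B // B ∈ P} => p b.1).card = (P.filter p).card := by
    intro p
    refine card_bij (fun b _ => b.1) ?_ ?_ ?_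
    · intro b hb
      rw [mem_filter] at hb ⊢
      exact ⟨b.2, hb.2⟩
    · intro b _ b' _ h
      exact Subtype.ext h
    · intro B hB
      rw [mem_filter] at hB
      exact ⟨⟨B, hB.1⟩, by rw [mem_filter]; exact ⟨mem_univ _, hB.2⟩, rfl⟩
  have key := Pool.Agent.V7H35.Pierce.grid_bound (X := Fin n) (Y := Fin n) (B := {B // B ∈ P})
    (fun b i => ∃ j, (i, j) ∈ b.1) (fun b j => ∃ i, (i, j) ∈ b.1) ?_ ?_ ?_ ?_ ?_ k ?_ ?_
  · rw [Fintype.card_coe] at key
    have h : (4 * (k : ℝ)) ≤ P.card + 4 := by linarith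
    have h' : 4 * k ≤ P.card + 4 := by exact_mod_cast h
    omega
  · intro i j
    obtain ⟨B, hB, hx⟩ := hP.2.2 (i, j)
    refine ⟨⟨B, hB⟩, (hbox ⟨B, hB⟩ i j).2 hx, ?_⟩
    rintro ⟨B', hB'⟩ h
    have hx' := (hbox ⟨B', hB'⟩ i j).1 h
    by_contra hne
    have hne' : B' ≠ B := fun h => hne (Subtype.ext h)
    exact disjoint_left.1 (hP.2.1 B' hB' B hB hne') hx' hx
  · rintro ⟨B, hB⟩
    obtain ⟨B₁, B₂, ⟨i, hi⟩, ⟨j, hj⟩, h3, h4, rfl⟩ := hP.1 B hB
    exact ⟨i, j, mem_product.2 ⟨hi, hj⟩⟩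
  · rintro ⟨B, hB⟩
    obtain ⟨B₁, B₂, h1, h2, h3, h4, rfl⟩ := hP.1 B hB
    obtain ⟨i, hi⟩ : ∃ i, i ∉ B₁ := by
      by_contra h
      push Not at h
      exact h3 (eq_univ_of_forall h)
    exact ⟨i, fun ⟨j, hj⟩ => hi (mem_product.1 hj).1⟩
  · rintro ⟨B, hB⟩
    obtain ⟨B₁, B₂, ⟨i, hi⟩, ⟨j, hj⟩, h3, h4, rfl⟩ := hP.1 B hB
    exact ⟨j, i, mem_product.2 ⟨hi, hj⟩⟩
  · rintro ⟨B, hB⟩
    obtain ⟨B₁, B₂, h1, h2, h3, h4, rfl⟩ := hP.1 B hB
    obtain ⟨j, hj⟩ : ∃ j, j ∉ B₂ := by
      by_contra h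
      push Not at h
      exact h4 (eq_univ_of_forall h)
    exact ⟨j, fun ⟨i, hi⟩ => hj (mem_product.1 hi).2⟩
  · intro i
    refine (hk.1 i).trans (le_of_eq ?_)
    convert (hcard fun B => ∃ j, (i, j) ∈ B).symm
  · intro j
    refine (hk.2 j).trans (le_of_eq ?_)
    convert (hcard fun B => ∃ i, (i, j) ∈ B).symm

/-- The class of a line: its number, cut off at `2 * s - 1`. -/
def cl (s n : ℕ) (i : Fin n) : ℕ := min i.1 (2 * s - 1)

/-- The label of a cell in the construction. -/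
def lab (s n : ℕ) (x : Fin n × Fin n) : Bool × ℕ :=
  if (cl s n x.1 < s ↔ cl s n x.2 < s) then (true, cl s n x.2) else (false, cl s n x.1)

/-- The part with a given label. -/
def part (s n : ℕ) (t : Bool × ℕ) : Finset (Fin n × Fin n) :=
  univ.filter fun x => lab s n x = t

theorem mem_part {s n : ℕ} {t : Bool × ℕ} {x : Fin n × Fin n} :
    x ∈ part s n t ↔ lab s n x = t := by
  simp [part]

theorem cl_lt {s n : ℕ} (hs : 1 ≤ s) (i : Fin n) : cl s n i < 2 * s := by
  unfold cl
  omega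

theorem exists_cl {s n : ℕ} (hn : 2 * s ≤ n) {t : ℕ} (ht : t < 2 * s) :
    ∃ i : Fin n, cl s n i = t :=
  ⟨⟨t, by omega⟩, by unfold cl; simp only; omega⟩

theorem lab_mem {s n : ℕ} (hs : 1 ≤ s) (x : Fin n × Fin n) :
    lab s n x ∈ (univ : Finset Bool) ×ˢ range (2 * s) := by
  rw [mem_product]
  refine ⟨mem_univ _, ?_⟩
  rw [mem_range]
  unfold lab
  split_ifs
  · exact cl_lt hs _
  · exact cl_lt hs _

theorem lab_eq_true {s n : ℕ} {x : Fin n × Fin n} {t : ℕ} :
    lab s n x = (true, t) ↔ (cl s n x.1 < s ↔ t < s) ∧ cl s n x.2 = t := by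
  unfold lab
  split_ifs with h
  · simp only [Prod.mk.injEq, true_and]
    constructor
    · intro h'
      rw [h'] at h
      exact ⟨h, h'⟩
    · exact fun h' => h'.2
  · simp only [Prod.mk.injEq, Bool.false_eq_true, false_and, false_iff, not_and]
    intro h' h2
    rw [h2] at h
    exact h h'

theorem lab_eq_false {s n : ℕ} {x : Fin n × Fin n} {t : ℕ} :
    lab s n x = (false, t) ↔ cl s n x.1 = t ∧ ¬ (t < s ↔ cl s n x.2 < s) := by
  unfold lab
  split_ifs with h
  · simp only [Prod.mk.injEq, Bool.true_eq_false, false_and, false_iff, not_and, not_not]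
    intro h'
    rw [h'] at h
    exact h
  · simp only [Prod.mk.injEq, true_and]
    constructor
    · intro h'
      rw [h'] at h
      exact ⟨h', h⟩
    · exact fun h' => h'.1

/-- Lines of both halves exist. -/
theorem exists_half {s n : ℕ} (hs : 1 ≤ s) (hn : 2 * s ≤ n) (p : Prop) :
    ∃ i : Fin n, (cl s n i < s ↔ p) := by
  by_cases hp : p
  · obtain ⟨i, hi⟩ := exists_cl (s := s) (n := n) hn (t := 0) (by omega)
    exact ⟨i, by rw [hi]; simp only [hp, iff_true]; omega⟩
  · obtain ⟨i, hi⟩ := exists_cl (s := s) (n := n) hn (t := s) (by omega)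
    exact ⟨i, by rw [hi]; simp [hp]⟩

theorem part_nonempty {s n : ℕ} (hs : 1 ≤ s) (hn : 2 * s ≤ n) {t : Bool × ℕ}
    (ht : t ∈ (univ : Finset Bool) ×ˢ range (2 * s)) : ∃ x, lab s n x = t := by
  rcases t with ⟨b, t⟩
  rw [mem_product, mem_range] at ht
  obtain ⟨i, hi⟩ := exists_cl (s := s) (n := n) hn (t := t) ht.2
  cases b
  · obtain ⟨j, hj⟩ := exists_half (n := n) hs hn (¬ t < s)
    refine ⟨(i, j), lab_eq_false.2 ⟨hi, ?_⟩⟩
    simp only [hj]
    tauto
  · obtain ⟨j, hj⟩ := exists_half (n := n) hs hn (t < s)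
    exact ⟨(j, i), lab_eq_true.2 ⟨hj, hi⟩⟩

theorem part_proper {s n : ℕ} (hs : 1 ≤ s) (hn : 2 * s ≤ n) {t : Bool × ℕ}
    (ht : t ∈ (univ : Finset Bool) ×ˢ range (2 * s)) : IsProperBox n (part s n t) := by
  obtain ⟨x, hx⟩ := part_nonempty (n := n) hs hn ht
  rcases t with ⟨b, t⟩
  rw [mem_product, mem_range] at ht
  cases b
  · rw [lab_eq_false] at hx
    refine ⟨univ.filter fun i => cl s n i = t, univ.filter fun j => ¬ (t < s ↔ cl s n j < s),
      ⟨x.1, by simp [hx.1]⟩, ⟨x.2, by rw [mem_filter]; exact ⟨mem_univ _, hx.2⟩⟩, ?_, ?_, ?_⟩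
    · intro h
      obtain ⟨i, hi⟩ := exists_half (n := n) hs hn (¬ t < s)
      have : i ∈ univ.filter fun i => cl s n i = t := by rw [h]; exact mem_univ _
      rw [mem_filter] at this
      rw [this.2] at hi
      tauto
    · intro h
      obtain ⟨j, hj⟩ := exists_half (n := n) hs hn (t < s)
      have : j ∈ univ.filter fun j => ¬ (t < s ↔ cl s n j < s) := by rw [h]; exact mem_univ _
      rw [mem_filter] at this
      exact this.2 hj.symm
    · ext y
      rw [mem_part, lab_eq_false, mem_product, mem_filter, mem_filter]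
      simp
  · rw [lab_eq_true] at hx
    refine ⟨univ.filter fun i => (cl s n i < s ↔ t < s), univ.filter fun j => cl s n j = t,
      ⟨x.1, by rw [mem_filter]; exact ⟨mem_univ _, hx.1⟩⟩, ⟨x.2, by simp [hx.2]⟩, ?_, ?_, ?_⟩
    · intro h
      obtain ⟨i, hi⟩ := exists_half (n := n) hs hn (¬ t < s)
      have : i ∈ univ.filter fun i => (cl s n i < s ↔ t < s) := by rw [h]; exact mem_univ _
      rw [mem_filter] at this
      tauto
    · intro h
      obtain ⟨j, hj⟩ := exists_half (n := n) hs hn (¬ t < s)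
      have : j ∈ univ.filter fun j => cl s n j = t := by rw [h]; exact mem_univ _
      rw [mem_filter] at this
      rw [this.2] at hj
      tauto
    · ext y
      rw [mem_part, lab_eq_true, mem_product, mem_filter, mem_filter]
      simp

/-- The construction with `4 * s` parts. -/
def con (s n : ℕ) : Finset (Finset (Fin n × Fin n)) :=
  ((univ : Finset Bool) ×ˢ range (2 * s)).image (part s n)

theorem part_injOn {s n : ℕ} (hs : 1 ≤ s) (hn : 2 * s ≤ n) :
    Set.InjOn (part s n) ((univ : Finset Bool) ×ˢ range (2 * s) : Finset (Bool × ℕ)) := by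
  intro t ht t' _ h
  obtain ⟨x, hx⟩ := part_nonempty (n := n) hs hn (mem_coe.1 ht)
  have h1 : x ∈ part s n t := mem_part.2 hx
  rw [h] at h1
  rw [← hx, ← mem_part.1 h1]

/-- The halves have `s` classes each. -/
theorem card_half (s : ℕ) (p : Prop) [DecidablePred fun t : ℕ => (p ↔ t < s)] :
    ((range (2 * s)).filter fun t => (p ↔ t < s)).card = s := by
  by_cases hp : p
  · have : ((range (2 * s)).filter fun t => (p ↔ t < s)) = range s := by
      ext t
      simp only [mem_filter, mem_range, hp, true_iff]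
      omega
    rw [this, card_range]
  · have : ((range (2 * s)).filter fun t => (p ↔ t < s)) = Ico s (2 * s) := by
      ext t
      simp only [mem_filter, mem_range, hp, false_iff, mem_Ico]
      omega
    rw [this, Nat.card_Ico]
    omega

theorem con_spec {s n : ℕ} (hs : 1 ≤ s) (hn : 2 * s ≤ n) :
    IsBoxPartition n (con s n) ∧ IsPiercing n (s + 1) (con s n) ∧ (con s n).card = 4 * s := by
  refine ⟨⟨?_, ?_, ?_⟩, ⟨?_, ?_⟩, ?_⟩
  · intro B hB
    obtain ⟨t, ht, rfl⟩ := mem_image.1 hB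
    exact part_proper hs hn ht
  · intro B hB B' hB' hne
    obtain ⟨t, ht, rfl⟩ := mem_image.1 hB
    obtain ⟨t', ht', rfl⟩ := mem_image.1 hB'
    rw [disjoint_left]
    intro x hx hx'
    refine hne ?_
    rw [← mem_part.1 hx, ← mem_part.1 hx']
  · intro x
    exact ⟨part s n (lab s n x), mem_image.2 ⟨_, lab_mem hs x, rfl⟩, mem_part.2 rfl⟩
  · intro i
    -- the labels met by the row `i`
    set T : Finset (Bool × ℕ) := insert (false, cl s n i)
      (((range (2 * s)).filter fun t => (cl s n i < s ↔ t < s)).image fun t => (true, t)) with hT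
    have hTsub : T ⊆ (univ : Finset Bool) ×ˢ range (2 * s) := by
      intro t ht
      rw [hT, mem_insert, mem_image] at ht
      rw [mem_product]
      rcases ht with rfl | ⟨u, hu, rfl⟩
      · exact ⟨mem_univ _, mem_range.2 (cl_lt hs i)⟩
      · exact ⟨mem_univ _, (mem_filter.1 hu).1⟩
    have hTc : T.card = s + 1 := by
      rw [hT, card_insert_of_notMem, card_image_of_injective, card_half]
      · intro a b h
        simpa using h
      · simp
    rw [← hTc, ← card_image_of_injOn (fun a ha b hb => part_injOn hs hn (hTsub ha) (hTsub hb))]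
    refine card_le_card ?_
    intro B hB
    obtain ⟨t, ht, rfl⟩ := mem_image.1 hB
    rw [mem_filter]
    refine ⟨mem_image.2 ⟨t, hTsub ht, rfl⟩, ?_⟩
    simp only [mem_part]
    rw [hT, mem_insert, mem_image] at ht
    rcases ht with rfl | ⟨u, hu, rfl⟩
    · obtain ⟨j, hj⟩ := exists_half (n := n) hs hn (¬ cl s n i < s)
      refine ⟨j, lab_eq_false.2 ⟨rfl, ?_⟩⟩
      simp only [hj]
      tauto
    · rw [mem_filter, mem_range] at hu
      obtain ⟨j, hj⟩ := exists_cl (s := s) (n := n) hn hu.1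
      exact ⟨j, lab_eq_true.2 ⟨hu.2, hj⟩⟩
  · intro j
    set T : Finset (Bool × ℕ) := insert (true, cl s n j)
      (((range (2 * s)).filter fun t => (¬ cl s n j < s ↔ t < s)).image fun t => (false, t))
      with hT
    have hTsub : T ⊆ (univ : Finset Bool) ×ˢ range (2 * s) := by
      intro t ht
      rw [hT, mem_insert, mem_image] at ht
      rw [mem_product]
      rcases ht with rfl | ⟨u, hu, rfl⟩
      · exact ⟨mem_univ _, mem_range.2 (cl_lt hs j)⟩
      · exact ⟨mem_univ _, (mem_filter.1 hu).1⟩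
    have hTc : T.card = s + 1 := by
      rw [hT, card_insert_of_notMem, card_image_of_injective, card_half]
      · intro a b h
        simpa using h
      · simp
    rw [← hTc, ← card_image_of_injOn (fun a ha b hb => part_injOn hs hn (hTsub ha) (hTsub hb))]
    refine card_le_card ?_
    intro B hB
    obtain ⟨t, ht, rfl⟩ := mem_image.1 hB
    rw [mem_filter]
    refine ⟨mem_image.2 ⟨t, hTsub ht, rfl⟩, ?_⟩
    simp only [mem_part]
    rw [hT, mem_insert, mem_image] at ht
    rcases ht with rfl | ⟨u, hu, rfl⟩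
    · obtain ⟨i, hi⟩ := exists_half (n := n) hs hn (cl s n j < s)
      exact ⟨i, lab_eq_true.2 ⟨hi, rfl⟩⟩
    · rw [mem_filter, mem_range] at hu
      obtain ⟨i, hi⟩ := exists_cl (s := s) (n := n) hn hu.1
      refine ⟨i, lab_eq_false.2 ⟨hi, ?_⟩⟩
      simp only
      tauto
  · rw [con, card_image_of_injOn (part_injOn hs hn), card_product, card_range, card_univ,
      Fintype.card_bool]
    ring

/-- For every `k ≥ 2`: for all `n ≥ 1` every partition of `[n] × [n]` into proper boxes with the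
`k`-piercing property has at least `4 * (k - 1)` parts, for all `n ≥ 2 * k - 2` the least number of
parts is attained and equals `4 * (k - 1)`, and so the limit `p_box(2, k)` exists and is
`4 * (k - 1)`. -/
theorem result (k : ℕ) (hk : 2 ≤ k) :
    (∀ n : ℕ, 1 ≤ n → ∀ P : Finset (Finset (Fin n × Fin n)), IsBoxPartition n P →
      IsPiercing n k P → 4 * (k - 1) ≤ P.card) ∧
    (∀ n : ℕ, 2 * k - 2 ≤ n → IsLeast (sizes n k) (pBox n k) ∧ pBox n k = 4 * (k - 1)) ∧
    Tendsto (fun n => pBox n k) atTop (𝓝 (4 * (k - 1))) ∧ pBoxLim k = 4 * (k - 1) := by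
  have h1 : ∀ n : ℕ, 1 ≤ n → ∀ P : Finset (Finset (Fin n × Fin n)), IsBoxPartition n P →
      IsPiercing n k P → 4 * (k - 1) ≤ P.card := fun n hn P hP hPk => lower hn P hP hPk
  have h2 : ∀ n : ℕ, 2 * k - 2 ≤ n → IsLeast (sizes n k) (4 * (k - 1)) := by
    intro n hn
    have hc := con_spec (s := k - 1) (n := n) (by omega) (by omega)
    rw [show k - 1 + 1 = k by omega] at hc
    refine ⟨⟨con (k - 1) n, hc⟩, ?_⟩
    rintro m ⟨P, hP, hPk, rfl⟩
    exact h1 n (by omega) P hP hPk
  have h3 : ∀ n : ℕ, 2 * k - 2 ≤ n → pBox n k = 4 * (k - 1) := fun n hn => (h2 n hn).csInf_eq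
  have h4 : Tendsto (fun n => pBox n k) atTop (𝓝 (4 * (k - 1))) :=
    tendsto_atTop_of_eventually_const (i₀ := 2 * k - 2) h3
  refine ⟨h1, fun n hn => ⟨?_, h3 n hn⟩, h4, h4.limUnder_eq⟩
  rw [h3 n hn]
  exact h2 n hn

end Pool.Agent.Results.MP_21d1af_co.PiercingBoxesH35
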